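import Pool.Agent.helper79.HT.Defs

/-!
Module B for MP_e6cd9b_lc: the Cantor algebra (regular open sets of `L → Bool`) is a ccc
complete Boolean algebra with independent generators whose cylinders are dense.
-/

set_option autoImplicit false

namespace Pool.Agent.helper63.HT

open Pool.Agent.helper79.HT TopologicalSpace MeasureTheory

/-- regular open sets of the Cantor cube -/
abbrev RO (L : Type) : Type := Heyting.Regular (Opens (L → Bool))

noncomputable def cl (L : Type) : CompleteLattice (RO L) :=
  Heyting.Regular.gi.liftCompleteLattice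

noncomputable instance instCBA (L : Type) : CompleteBooleanAlgebra (RO L) :=
  { (inferInstance : BooleanAlgebra (RO L)) with
    sSup := (cl L).sSup
    sInf := (cl L).sInf
    isLUB_sSup := fun s => (cl L).isLUB_sSup s
    isGLB_sInf := fun s => (cl L).isGLB_sInf s }

variable {L : Type}

def posO (l : L) : Opens (L → Bool) :=
  ⟨(fun x : L → Bool => x l) ⁻¹' {true}, (isOpen_discrete {true}).preimage (continuous_apply l)⟩

def negO (l : L) : Opens (L → Bool) :=
  ⟨(fun x : L → Bool => x l) ⁻¹' {false}, (isOpen_discrete {false}).preimage (continuous_apply l)⟩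

lemma isCompl_pn (l : L) : IsCompl (posO l) (negO l) := by
  constructor
  · rw [disjoint_iff]
    ext x
    simp only [Opens.coe_inf, Opens.coe_bot, Set.mem_inter_iff, Set.mem_empty_iff_false, iff_false]
    rintro ⟨h1, h2⟩
    change x l = true at h1
    change x l = false at h2
    rw [h1] at h2
    exact absurd h2 (by decide)
  · rw [codisjoint_iff]
    ext x
    simp only [Opens.coe_sup, Opens.coe_top, Set.mem_union, Set.mem_univ, iff_true]
    rcases h : x l with _ | _
    · exact Or.inr h
    · exact Or.inl h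

lemma posO_compl (l : L) : (posO l)ᶜ = negO l := (isCompl_pn l).compl_eq
lemma negO_compl (l : L) : (negO l)ᶜ = posO l := (isCompl_pn l).symm.compl_eq

/-- the generator -/
def gen (l : L) : RO L := ⟨posO l, by rw [Heyting.IsRegular, posO_compl, negO_compl]⟩

lemma coe_lit (ε : L → Bool) (l : L) :
    ((lit (gen (L := L)) ε l : RO L) : Opens (L → Bool)) = if ε l = true then posO l else negO l := by
  unfold lit
  by_cases h : ε l = true
  · rw [if_pos h, if_pos h]; rfl
  · rw [if_neg h, if_neg h]
    change (posO l)ᶜ = negO l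
    exact posO_compl l

lemma mem_lit (ε : L → Bool) (l : L) (x : L → Bool) :
    x ∈ ((lit (gen (L := L)) ε l : RO L) : Opens (L → Bool)) ↔ x l = ε l := by
  rw [coe_lit]
  by_cases h : ε l = true
  · rw [if_pos h, h]; rfl
  · rw [if_neg h]
    have h' : ε l = false := by simpa using h
    rw [h']; rfl

lemma mem_cyl (F : Finset L) (ε : L → Bool) (x : L → Bool) :
    x ∈ ((F.inf (lit (gen (L := L)) ε) : RO L) : Opens (L → Bool)) ↔ ∀ l ∈ F, x l = ε l := by
  classical
  induction F using Finset.induction_on with
  | empty =>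
    simp only [Finset.notMem_empty, false_imp_iff, implies_true, iff_true]
    rw [Finset.inf_empty]
    change x ∈ ((⊤ : RO L) : Opens (L → Bool))
    exact Set.mem_univ x
  | insert a F ha ih =>
    rw [Finset.inf_insert]
    change (x ∈ ((lit (gen (L := L)) ε a : RO L) : Opens (L → Bool)) ∧
      x ∈ ((F.inf (lit (gen (L := L)) ε) : RO L) : Opens (L → Bool))) ↔ _
    rw [ih, mem_lit]
    simp

lemma le_of_mem {a b : RO L} (h : ∀ x, x ∈ (a : Opens (L → Bool)) → x ∈ (b : Opens (L → Bool))) :
    a ≤ b := h

lemma ne_bot_of_mem {a : RO L} {x : L → Bool} (h : x ∈ (a : Opens (L → Bool))) : a ≠ ⊥ := by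
  intro hb
  rw [hb] at h
  exact h

lemma exists_mem {a : RO L} (h : a ≠ ⊥) : ∃ x, x ∈ (a : Opens (L → Bool)) := by
  by_contra hcon
  push Not at hcon
  apply h
  apply le_antisymm _ bot_le
  exact le_of_mem (fun x hx => absurd hx (hcon x))

lemma exists_cyl {b : RO L} (hb : b ≠ ⊥) :
    ∃ (F : Finset L) (ε : L → Bool), F.inf (lit (gen (L := L)) ε) ≤ b := by
  obtain ⟨x, hx⟩ := exists_mem hb
  have hopen : IsOpen ((b : Opens (L → Bool)) : Set (L → Bool)) := (b : Opens (L → Bool)).isOpen
  rw [isOpen_pi_iff] at hopen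
  obtain ⟨F, u, hu, hsub⟩ := hopen x hx
  refine ⟨F, x, le_of_mem (fun y hy => ?_)⟩
  rw [mem_cyl] at hy
  apply hsub
  intro l hl
  rw [hy l hl]
  exact (hu l hl).2

theorem cohen_gen : Cohen (gen (L := L)) := by
  refine ⟨fun F ε => ?_, fun b hb => exists_cyl hb⟩
  exact ne_bot_of_mem (x := ε) ((mem_cyl F ε ε).2 (fun _ _ => rfl))

/-- fair coin measure -/
noncomputable def coin : Measure Bool := (PMF.uniformOfFintype Bool).toMeasure

instance : IsProbabilityMeasure coin := by unfold coin; infer_instance

lemma coin_pos (b : Bool) : 0 < coin {b} := by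
  unfold coin
  rw [PMF.toMeasure_apply_singleton _ _ (measurableSet_singleton b)]
  simp [PMF.uniformOfFintype_apply]

theorem ccc_RO : CCC (RO L) := by
  intro ι f hf hdisj
  choose F ε hF using fun i => exists_cyl (hf i)
  set μ : Measure (L → Bool) := Measure.infinitePi (fun _ => coin) with hμ
  set A : ι → Set (L → Bool) := fun i => Set.pi (F i) (fun l => {ε i l}) with hA
  have hmeas : ∀ i, MeasurableSet (A i) := by
    intro i
    exact MeasurableSet.pi (F i).countable_toSet (fun l _ => measurableSet_singleton _)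
  have hpos : ∀ i, 0 < μ (A i) := by
    intro i
    rw [hμ, hA]
    simp only
    rw [Measure.infinitePi_pi]
    · rw [pos_iff_ne_zero, Finset.prod_ne_zero_iff]
      intro l _
      exact (coin_pos _).ne'
    · intro l _
      exact measurableSet_singleton _
  have hd : Pairwise (Function.onFun Disjoint A) := by
    intro i j hij
    rw [Function.onFun, Set.disjoint_left]
    intro x hxi hxj
    have h1 : x ∈ (f i : Opens (L → Bool)) := hF i ((mem_cyl (F i) (ε i) x).2 (fun l hl => hxi l hl))
    have h2 : x ∈ (f j : Opens (L → Bool)) := hF j ((mem_cyl (F j) (ε j) x).2 (fun l hl => hxj l hl))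
    have h3 : x ∈ ((f i ⊓ f j : RO L) : Opens (L → Bool)) := ⟨h1, h2⟩
    exact ne_bot_of_mem h3 (hdisj i j hij)
  have hc := Measure.countable_meas_pos_of_disjoint_iUnion (μ := μ) hmeas hd
  have : {i | 0 < μ (A i)} = Set.univ := by
    ext i; simp [hpos i]
  rw [this] at hc
  exact Set.countable_univ_iff.1 hc

/-- B -/
theorem exists_cohen (L : Type) : ∃ (B : Type) (_ : CompleteBooleanAlgebra B) (c : L → B),
    CCC B ∧ Cohen c :=
  ⟨RO L, instCBA L, gen, ccc_RO, cohen_gen⟩

end Pool.Agent.helper63.HT
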